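import Pool.Agent.W93.PP5

set_option autoImplicit false

/-! The logarithmic integral `∫ dt / log² t` up to an error of order `x / log³ x`. -/

namespace Pool.Agent.N469.UN
open Finset
open Pool.Agent.W93.PP (Li2 intble)

lemma int3 (s t : ℝ) (hs : 2 ≤ s) (ht : 2 ≤ t) : IntervalIntegrable (fun t : ℝ => 1 / Real.log t ^ 3) MeasureTheory.volume s t := by
  apply ContinuousOn.intervalIntegrable
  intro u hu
  rw [Set.mem_uIcc] at hu
  have hu2 : 2 ≤ u := by rcases hu with h | h <;> linarith [h.1]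
  have h1 : 0 < Real.log u := Real.log_pos (by linarith)
  apply ContinuousAt.continuousWithinAt
  exact continuousAt_const.div ((Real.continuousAt_log (by linarith)).pow 3) (by positivity)

lemma int4 (s t : ℝ) (hs : 2 ≤ s) (ht : 2 ≤ t) : IntervalIntegrable (fun t : ℝ => 1 / Real.log t ^ 4) MeasureTheory.volume s t := by
  apply ContinuousOn.intervalIntegrable
  intro u hu
  rw [Set.mem_uIcc] at hu
  have hu2 : 2 ≤ u := by rcases hu with h | h <;> linarith [h.1]
  have h1 : 0 < Real.log u := Real.log_pos (by linarith)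
  apply ContinuousAt.continuousWithinAt
  exact continuousAt_const.div ((Real.continuousAt_log (by linarith)).pow 4) (by positivity)

lemma parts2 (x : ℝ) (hx : 2 ≤ x) : Li2 x = x / Real.log x ^ 2 - 2 / Real.log 2 ^ 2 + 2 * ∫ t in (2 : ℝ)..x, 1 / Real.log t ^ 3 := by
  have h : ∫ t in (2 : ℝ)..x, (1 / Real.log t ^ 2 - 2 * (1 / Real.log t ^ 3)) = x / Real.log x ^ 2 - 2 / Real.log 2 ^ 2 := by
    refine intervalIntegral.integral_eq_sub_of_hasDerivAt (f := fun t => t / Real.log t ^ 2) (fun t ht => ?_) ((intble 2 x le_rfl hx).sub ((int3 2 x le_rfl hx).const_mul 2))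
    rw [Set.uIcc_of_le hx] at ht
    have h1 : 0 < Real.log t := Real.log_pos (by linarith [ht.1])
    have h2 : t ≠ 0 := by linarith [ht.1]
    have h4 : HasDerivAt (fun u : ℝ => Real.log u ^ 2) (((2 : ℕ) : ℝ) * Real.log t ^ (2 - 1) * t⁻¹) t := (Real.hasDerivAt_log h2).fun_pow 2
    have h3 := (hasDerivAt_id' t).fun_div h4 (by positivity)
    have h5 : (1 / Real.log t ^ 2 - 2 * (1 / Real.log t ^ 3) : ℝ) =
        (1 * Real.log t ^ 2 - t * (((2 : ℕ) : ℝ) * Real.log t ^ (2 - 1) * t⁻¹)) / (Real.log t ^ 2) ^ 2 := by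
      push_cast
      field_simp
      try ring
    rw [h5]
    exact h3
  rw [intervalIntegral.integral_sub (intble 2 x le_rfl hx) ((int3 2 x le_rfl hx).const_mul 2), intervalIntegral.integral_const_mul] at h
  unfold Li2
  linarith

lemma parts3 (s x : ℝ) (hs : 2 ≤ s) (hx : s ≤ x) : ∫ t in s..x, (1 / Real.log t ^ 3 - 3 * (1 / Real.log t ^ 4)) = x / Real.log x ^ 3 - s / Real.log s ^ 3 := by
  refine intervalIntegral.integral_eq_sub_of_hasDerivAt (f := fun t => t / Real.log t ^ 3) (fun t ht => ?_) ((int3 s x hs (hs.trans hx)).sub ((int4 s x hs (hs.trans hx)).const_mul 3))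
  rw [Set.uIcc_of_le hx] at ht
  have h1 : 0 < Real.log t := Real.log_pos (by linarith [ht.1])
  have h2 : t ≠ 0 := by linarith [ht.1]
  have h4 : HasDerivAt (fun u : ℝ => Real.log u ^ 3) (((3 : ℕ) : ℝ) * Real.log t ^ (3 - 1) * t⁻¹) t := (Real.hasDerivAt_log h2).fun_pow 3
  have h3 := (hasDerivAt_id' t).fun_div h4 (by positivity)
  have h5 : (1 / Real.log t ^ 3 - 3 * (1 / Real.log t ^ 4) : ℝ) =
      (1 * Real.log t ^ 3 - t * (((3 : ℕ) : ℝ) * Real.log t ^ (3 - 1) * t⁻¹)) / (Real.log t ^ 3) ^ 2 := by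
    push_cast
    field_simp
    try ring
  rw [h5]
  exact h3

/-- `x / log² x - C ≤ Li₂(x) ≤ x / log² x + 3 x / log³ x + C`. -/
theorem li_bd : ∃ C : ℝ, 0 ≤ C ∧ ∀ x : ℝ, Real.exp 9 ≤ x → x / Real.log x ^ 2 - C ≤ Li2 x ∧
    Li2 x ≤ x / Real.log x ^ 2 + 3 * (x / Real.log x ^ 3) + C := by
  obtain ⟨s, hs⟩ : ∃ s, s = Real.exp 9 := ⟨_, rfl⟩
  have hs2 : 2 ≤ s := by
    rw [hs]
    have := Real.add_one_le_exp (9 : ℝ)
    linarith
  have hls : Real.log s = 9 := by rw [hs, Real.log_exp]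
  obtain ⟨I, hI⟩ : ∃ I, I = ∫ t in (2 : ℝ)..s, 1 / Real.log t ^ 3 := ⟨_, rfl⟩
  have hI0 : 0 ≤ I := by
    rw [hI]
    apply intervalIntegral.integral_nonneg hs2
    intro t ht
    have h1 : 0 < Real.log t := Real.log_pos (by linarith [ht.1])
    positivity
  have h20 : 0 < Real.log 2 := Real.log_pos (by norm_num)
  refine ⟨2 * I + 2 / Real.log 2 ^ 2, by positivity, fun x hx => ?_⟩
  rw [← hs] at hx
  have hx2 : 2 ≤ x := hs2.trans hx
  have hlx : 9 ≤ Real.log x := by
    rw [← hls]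
    exact Real.log_le_log (by linarith) hx
  have e1 := parts2 x hx2
  have e2 : ∫ t in (2 : ℝ)..x, 1 / Real.log t ^ 3 = I + ∫ t in s..x, 1 / Real.log t ^ 3 := by
    rw [hI, intervalIntegral.integral_add_adjacent_intervals (int3 2 s le_rfl hs2) (int3 s x hs2 hx2)]
  have e3 : 0 ≤ ∫ t in s..x, 1 / Real.log t ^ 3 := by
    apply intervalIntegral.integral_nonneg hx
    intro t ht
    have h1 : 0 < Real.log t := Real.log_pos (by linarith [ht.1])
    positivity
  have e4 : (2 / 3) * ∫ t in s..x, 1 / Real.log t ^ 3 ≤ x / Real.log x ^ 3 := by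
    have h1 := parts3 s x hs2 hx
    have h2 : (2 / 3) * ∫ t in s..x, 1 / Real.log t ^ 3 ≤ ∫ t in s..x, (1 / Real.log t ^ 3 - 3 * (1 / Real.log t ^ 4)) := by
      rw [← intervalIntegral.integral_const_mul]
      refine intervalIntegral.integral_mono_on hx ((int3 s x hs2 hx2).const_mul _) ((int3 s x hs2 hx2).sub ((int4 s x hs2 hx2).const_mul 3)) (fun t ht => ?_)
      have h3 : 9 ≤ Real.log t := by
        rw [← hls]
        exact Real.log_le_log (by linarith) ht.1
      have h4 : 1 / Real.log t ^ 4 ≤ (1 / 9) * (1 / Real.log t ^ 3) := by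
        rw [one_div, one_div, one_div, ← mul_inv]
        apply inv_anti₀ (by positivity)
        calc 9 * Real.log t ^ 3 ≤ Real.log t * Real.log t ^ 3 := by gcongr
          _ = _ := by ring
      linarith
    rw [h1] at h2
    have h5 : 0 ≤ s / Real.log s ^ 3 := by rw [hls]; positivity
    linarith
  rw [e1, e2]
  have h9 : 0 ≤ 2 / Real.log 2 ^ 2 := by positivity
  constructor
  · linarith
  · linarith

end Pool.Agent.N469.UN
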